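import Mathlib

/-! A/Stz: independent rows can be completed by unit vectors. -/

set_option autoImplicit false

namespace T1

private theorem Stz_det {κ : Type} [Field κ] {β : Type} [Fintype β] [DecidableEq β] {d : ℕ}
    (u : β → Fin d → κ) (hu : LinearIndependent κ u) (e : β ≃ Fin d) :
    Matrix.det (Matrix.of fun x y : β => u x (e y)) ≠ 0 := by
  have h : LinearIndependent κ (fun x : β => (LinearEquiv.funCongrLeft κ κ e) (u x)) :=
    hu.map' (LinearEquiv.funCongrLeft κ κ e).toLinearMap (LinearEquiv.ker _)
  have h2 : IsUnit (Matrix.of fun x y : β => u x (e y)) := by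
    rw [← Matrix.linearIndependent_rows_iff_isUnit]
    exact h
  rw [Matrix.isUnit_iff_isUnit_det] at h2
  exact h2.ne_zero

open Classical in
theorem exists_unit_minor {κ : Type} [Field κ] {ι : Type} [Fintype ι] {n d : ℕ}
    (v : ι → Fin d → κ) (hv : LinearIndependent κ v) (e : Fin n ⊕ ι ≃ Fin d) :
    ∃ s : Fin n → Fin d, Matrix.det (Matrix.of fun x y : Fin n ⊕ ι =>
      Sum.elim (fun i => (Pi.single (s i) 1 : Fin d → κ)) v x (e y)) ≠ 0 := by
  let w : ι ⊕ Fin d → Fin d → κ := Sum.elim v (fun i => Pi.single i 1)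
  have hs : LinearIndepOn κ w (Set.range Sum.inl) := by
    rw [linearIndepOn_range_iff Sum.inl_injective]
    exact hv
  obtain ⟨b, -, hb1, hb2, hb3⟩ := exists_linearIndepOn_extension hs (Set.subset_univ _)
  have hspan : ⊤ ≤ Submodule.span κ (Set.range (fun x : b => w x)) := by
    have h1 : Set.range (fun x : b => w x) = w '' b := by
      ext z
      constructor
      · rintro ⟨x, rfl⟩; exact ⟨x, x.2, rfl⟩
      · rintro ⟨x, hx, rfl⟩; exact ⟨⟨x, hx⟩, rfl⟩
    rw [h1]
    rintro z -
    have hz : z = ∑ i, z i • (Pi.single i 1 : Fin d → κ) := by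
      ext j
      simp [Finset.sum_apply, Pi.single_apply]
    rw [hz]
    apply Submodule.sum_mem
    intro i _
    exact Submodule.smul_mem _ _ (hb2 ⟨Sum.inr i, trivial, rfl⟩)
  have hcard : Fintype.card b = d := by
    have h1 := Module.finrank_eq_card_basis (Module.Basis.mk hb3 hspan)
    rw [Module.finrank_fin_fun] at h1
    exact h1.symm
  let S : Set (Fin d) := {i | Sum.inr i ∈ b}
  let q : b ≃ ι ⊕ S :=
    { toFun := fun x => match x with
        | ⟨Sum.inl k, _⟩ => Sum.inl k
        | ⟨Sum.inr i, hi⟩ => Sum.inr ⟨i, hi⟩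
      invFun := fun x => match x with
        | Sum.inl k => ⟨Sum.inl k, hb1 ⟨k, rfl⟩⟩
        | Sum.inr i => ⟨Sum.inr i, i.2⟩
      left_inv := by rintro ⟨k | i, h⟩ <;> rfl
      right_inv := by rintro (k | i) <;> rfl }
  have hS : Fintype.card S = n := by
    have h1 := Fintype.card_congr q
    have h2 := Fintype.card_congr e
    rw [Fintype.card_sum] at h1 h2
    rw [Fintype.card_fin, Fintype.card_fin] at h2
    omega
  let g : Fin n ≃ S := (Fintype.equivFinOfCardEq hS).symm
  refine ⟨fun i => (g i : Fin d), ?_⟩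
  let jj : Fin n ⊕ ι → b := Sum.elim (fun i => ⟨Sum.inr (g i : Fin d), (g i).2⟩)
    (fun k => ⟨Sum.inl k, hb1 ⟨k, rfl⟩⟩)
  have hj : Function.Injective jj := by
    rintro (i | k) (i' | k') h
    · have h1 : (g i : Fin d) = g i' := by
        have := congrArg Subtype.val h
        simpa [jj] using this
      rw [g.injective (Subtype.ext h1)]
    · have := congrArg Subtype.val h
      simp [jj] at this
    · have := congrArg Subtype.val h
      simp [jj] at this
    · have h1 : k = k' := by
        have := congrArg Subtype.val h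
        simpa [jj] using this
      rw [h1]
  have hli : LinearIndependent κ (Sum.elim (fun i => (Pi.single (g i : Fin d) 1 : Fin d → κ)) v) := by
    have h1 := LinearIndependent.comp hb3 jj hj
    have h2 : (fun x : b => w x) ∘ jj
        = Sum.elim (fun i => (Pi.single (g i : Fin d) 1 : Fin d → κ)) v := by
      funext x
      rcases x with i | k <;> rfl
    rw [h2] at h1
    exact h1
  exact Stz_det _ hli e

end T1
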