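import Pool.Agent.Lib.MP_23b606_ag.T1.A.Reg

/-! A/Fi: nonempty Fine interior implies Kodaira dimension at least `0`. -/

set_option autoImplicit false

open scoped KaehlerDifferential

namespace T1

private theorem Fi_ne {M : Type} [AddCommGroup M] {K : Type} [Field K]
    (χ : Multiplicative M →* K) (x : Multiplicative M) : χ x ≠ 0 := fun hx => by
  have h : χ (x * x⁻¹) = 0 := by rw [map_mul, hx, zero_mul]
  rw [mul_inv_cancel, map_one] at h
  exact one_ne_zero h

theorem not_kodairaNeg {M : Type} [AddCommGroup M] [Module.Free ℤ M] [Module.Finite ℤ M]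
    {K : Type} [Field K] [Algebra ℂ K] {ι : Type} [Fintype ι] {f : ι → M →₀ ℂ}
    (χ : Multiplicative M →* K) (hG : Good f χ) {n : ℕ} (hχ : Pt f χ n) (m : ℕ) (hm1 : 1 ≤ m) (m0 : M)
    (hFI : ∀ n' : M →+ ℤ, n' ≠ 0 → (m : ℤ) * (∑ i, hm (f i) n' + 1) ≤ n' m0) :
    ¬ KodairaNeg K n := by
  intro hneg
  set b : Module.Basis (Fin (Module.finrank ℤ M)) ℤ M := Module.finBasis ℤ M with hb
  have hcard : Fintype.card (Fin n ⊕ ι) = Fintype.card (Fin (Module.finrank ℤ M)) := by
    rw [Fintype.card_sum, Fintype.card_fin, Fintype.card_fin, hχ.dim]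
  set e : Fin n ⊕ ι ≃ Fin (Module.finrank ℤ M) := Fintype.equivOfCardEq hcard with he
  obtain ⟨l, hlinj, hl⟩ := exists_ell b χ hG.ind hχ e
  obtain ⟨s, hs⟩ := exists_unit_minor (fun i => row b χ (f i)) (row_independent b χ hG.ind) e
  have hdt : dt b χ f e (fun i => Pi.single (s i) 1) ≠ 0 := hs
  set x : Fin n → K := fun i => χ (Multiplicative.ofAdd (b (s i))) with hx
  have hWx : W x = (∏ i, x i) • exteriorPower.ιMulti K n fun i => om b χ (Pi.single (s i) 1) := by
    unfold W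
    have h1 : (fun i => KaehlerDifferential.D ℂ K (x i))
        = fun i => x i • om b χ (Pi.single (s i) 1) := by
      funext i
      exact om_single b χ (s i)
    rw [h1]
    exact (exteriorPower.ιMulti K n).toMultilinearMap.map_smul_univ _ _
  have hlx : l (W x) ≠ 0 := by
    rw [hWx, map_smul, hl, smul_eq_mul]
    exact mul_ne_zero (Finset.prod_ne_zero_iff.mpr fun i _ => Fi_ne χ _) hdt
  have hWx0 : W x ≠ 0 := by
    intro h
    rw [h, map_zero] at hlx
    exact hlx rfl
  have hg0 : χ (Multiplicative.ofAdd m0) / (l (W x)) ^ m ≠ 0 :=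
    div_ne_zero (Fi_ne χ _) (pow_ne_zero _ hlx)
  refine hg0 (hneg x m _ hWx0 hm1 ?_)
  rintro O ⟨hdvr, u, hu⟩
  have hC : ∀ c : ℂ, algebraMap ℂ K c ∈ O := by
    intro c
    by_cases hc : c = 0
    · rw [hc, map_zero]
      exact O.zero_mem
    · have h1 := hu (MvPolynomial.C c) (by
        intro h
        exact hc (MvPolynomial.C_injective _ _ (by rw [h, map_zero])))
      rw [MvPolynomial.aeval_C] at h1
      exact (O.valuation_le_one_iff _).mp h1.le
  obtain ⟨V⟩ := exists_nval O hdvr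
  obtain ⟨a, haO, hla, hval, hval0⟩ := exists_tuple b χ e l hl O V hC (hG.vind O V hC)
  refine ⟨a, χ (Multiplicative.ofAdd m0) / (l (W a)) ^ m, l (W a) / l (W x), haO, ?_, ?_, ?_⟩
  · have hc0 : χ (Multiplicative.ofAdd m0) / (l (W a)) ^ m ≠ 0 :=
      div_ne_zero (Fi_ne χ _) (pow_ne_zero _ hla)
    rw [V.mem _ hc0]
    have h1 : V.v (χ (Multiplicative.ofAdd m0) / (l (W a)) ^ m)
        = V.nu χ m0 - m * V.v (l (W a)) := by
      have h2 : (l (W a)) ^ m = (l (W a)) ^ (m : ℤ) := (zpow_natCast _ _).symm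
      rw [div_eq_mul_inv, V.mul _ _ (Fi_ne χ _) (inv_ne_zero (pow_ne_zero _ hla)),
        V.inv (pow_ne_zero _ hla), h2, V.zpow hla]
      rfl
    rw [h1]
    by_cases hnu : V.nu χ = 0
    · have h3 := hval0 hnu
      rw [hnu]
      have h4 : (m : ℤ) * V.v (l (W a)) ≤ 0 :=
        mul_nonpos_of_nonneg_of_nonpos (Int.natCast_nonneg m) h3
      simp only [AddMonoidHom.zero_apply]
      linarith
    · have h3 := hFI _ hnu
      have h4 : (m : ℤ) * V.v (l (W a)) ≤ (m : ℤ) * (∑ i, hm (f i) (V.nu χ) + 1) :=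
        mul_le_mul_of_nonneg_left hval (Int.natCast_nonneg m)
      linarith
  · apply hlinj
    rw [map_smul, smul_eq_mul, div_mul_cancel₀ _ hlx]
  · rw [div_pow]
    field_simp

end T1
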