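import Pool.Agent.Lib.MP_23b606_ag.T1.Defs

/-! A/Val: normalised valuations of discrete valuation rings. -/

set_option autoImplicit false

namespace T1

/-- A normalised valuation with valuation ring `O` (on nonzero elements). -/
structure NVal {K : Type} [Field K] (O : ValuationSubring K) where
  π : K
  v : K → ℤ
  hπ : π ≠ 0
  vπ : v π = 1
  mul : ∀ x y, x ≠ 0 → y ≠ 0 → v (x * y) = v x + v y
  mem : ∀ x, x ≠ 0 → (x ∈ O ↔ 0 ≤ v x)

section ex

variable {K : Type} [Field K] {O : ValuationSubring K}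

/-- `x` is the `k`-th power of `p` times a unit. -/
private def ValR (O : ValuationSubring K) (p x : K) (k : ℤ) : Prop :=
  ∃ u : K, u ≠ 0 ∧ u ∈ O ∧ u⁻¹ ∈ O ∧ x = p ^ k * u

private theorem ValR.mul {p x y : K} (hp : p ≠ 0) {k l : ℤ} (hx : ValR O p x k)
    (hy : ValR O p y l) : ValR O p (x * y) (k + l) := by
  obtain ⟨u, u0, u1, u2, hu⟩ := hx
  obtain ⟨w, w0, w1, w2, hw⟩ := hy
  refine ⟨u * w, mul_ne_zero u0 w0, O.mul_mem _ _ u1 w1, ?_, ?_⟩
  · rw [mul_inv]
    exact O.mul_mem _ _ u2 w2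
  · rw [hu, hw, zpow_add₀ hp]
    ring

private theorem ValR.inv {p x : K} {k : ℤ} (hx : ValR O p x k) : ValR O p x⁻¹ (-k) := by
  obtain ⟨u, u0, u1, u2, hu⟩ := hx
  refine ⟨u⁻¹, inv_ne_zero u0, u2, by rwa [inv_inv], ?_⟩
  rw [hu, mul_inv, zpow_neg]

private theorem ValR.mem {p x : K} (hp : p ∈ O) (hp' : p⁻¹ ∉ O) {k : ℤ} (hx : ValR O p x k) :
    x ∈ O ↔ 0 ≤ k := by
  have hp0 : p ≠ 0 := by
    rintro rfl
    rw [inv_zero] at hp'
    exact hp' O.zero_mem
  have hpn : ∀ n : ℕ, p ^ n ∈ O := fun n => O.toSubring.pow_mem hp n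
  obtain ⟨u, u0, u1, u2, hu⟩ := hx
  constructor
  · intro hx
    by_contra hk
    rw [not_le] at hk
    obtain ⟨n, hn⟩ : ∃ n : ℕ, k = -((n : ℤ) + 1) := ⟨(-k - 1).toNat, by omega⟩
    apply hp'
    have h1 : p⁻¹ = p ^ n * (x * u⁻¹) := by
      rw [hu, hn, neg_add, zpow_add₀ hp0, zpow_neg, zpow_natCast, zpow_neg_one]
      field_simp
    rw [h1]
    exact O.mul_mem _ _ (hpn n) (O.mul_mem _ _ hx u2)
  · intro hk
    obtain ⟨n, rfl⟩ := Int.eq_ofNat_of_zero_le hk
    rw [hu, zpow_natCast]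
    exact O.mul_mem _ _ (hpn n) u1

private theorem ValR.unique {p x : K} (hp : p ∈ O) (hp' : p⁻¹ ∉ O) {k l : ℤ}
    (hx : ValR O p x k) (hy : ValR O p x l) : k = l := by
  have hp0 : p ≠ 0 := by
    rintro rfl
    rw [inv_zero] at hp'
    exact hp' O.zero_mem
  have hx0 : x ≠ 0 := by
    obtain ⟨u, u0, -, -, hu⟩ := hx
    rw [hu]
    exact mul_ne_zero (zpow_ne_zero k hp0) u0
  have h1 := (hx.mul hp0 hy.inv).mem hp hp'
  have h2 := (hy.mul hp0 hx.inv).mem hp hp'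
  rw [mul_inv_cancel₀ hx0] at h1 h2
  have h3 := h1.1 O.one_mem
  have h4 := h2.1 O.one_mem
  omega

end ex

theorem exists_nval {K : Type} [Field K] (O : ValuationSubring K)
    (h : IsDiscreteValuationRing O) : Nonempty (NVal O) := by
  classical
  obtain ⟨ϖ, hϖ⟩ := IsDiscreteValuationRing.exists_irreducible O
  obtain ⟨p, hpd⟩ : ∃ p : K, p = (ϖ : K) := ⟨_, rfl⟩
  have hp : p ∈ O := by rw [hpd]; exact ϖ.2
  have hp0 : p ≠ 0 := by
    rw [hpd]
    intro h0
    exact hϖ.ne_zero (Subtype.ext h0)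
  have hp' : p⁻¹ ∉ O := by
    intro h1
    apply hϖ.not_isUnit
    refine IsUnit.of_mul_eq_one (⟨p⁻¹, h1⟩ : O) (Subtype.ext ?_)
    change (ϖ : K) * p⁻¹ = 1
    rw [← hpd, mul_inv_cancel₀ hp0]
  have hnat : ∀ x : K, x ≠ 0 → x ∈ O → ∃ k : ℤ, ValR O p x k := by
    intro x hx hxO
    have hx' : (⟨x, hxO⟩ : O) ≠ 0 := fun h0 => hx (congrArg Subtype.val h0)
    obtain ⟨n, u, hu⟩ := IsDiscreteValuationRing.eq_unit_mul_pow_irreducible hx' hϖ
    refine ⟨n, (u : O), ?_, (u : O).2, ?_, ?_⟩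
    · intro h0
      exact u.ne_zero (Subtype.ext h0)
    · have h1 : ((u : O) : K) * ((u⁻¹ : Oˣ) : O) = 1 := by
        have h2 := congrArg Subtype.val (u.mul_inv)
        exact h2
      rw [inv_eq_of_mul_eq_one_right h1]
      exact ((u⁻¹ : Oˣ) : O).2
    · have h1 := congrArg Subtype.val hu
      have h2 : x = ((u : O) : K) * (ϖ : K) ^ n := h1
      rw [h2, zpow_natCast, hpd, mul_comm]
  have hex : ∀ x : K, x ≠ 0 → ∃ k : ℤ, ValR O p x k := by
    intro x hx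
    rcases O.mem_or_inv_mem x with h1 | h1
    · exact hnat x hx h1
    · obtain ⟨k, hk⟩ := hnat x⁻¹ (inv_ne_zero hx) h1
      refine ⟨-k, ?_⟩
      have h2 := hk.inv
      rwa [inv_inv] at h2
  choose! v hv using hex
  refine ⟨⟨p, v, hp0, ?_, ?_, ?_⟩⟩
  · refine (hv p hp0).unique hp hp' ⟨1, one_ne_zero, O.one_mem, ?_, ?_⟩
    · rw [inv_one]
      exact O.one_mem
    · rw [zpow_one, mul_one]
  · intro x y hx hy
    exact (hv (x * y) (mul_ne_zero hx hy)).unique hp hp' ((hv x hx).mul hp0 (hv y hy))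
  · intro x hx
    exact (hv x hx).mem hp hp'

variable {K : Type} [Field K] {O : ValuationSubring K} (V : NVal O)

theorem NVal.one : V.v 1 = 0 := by
  have h := V.mul 1 1 one_ne_zero one_ne_zero
  rw [mul_one] at h
  omega

theorem NVal.inv {x : K} (hx : x ≠ 0) : V.v x⁻¹ = -V.v x := by
  have h := V.mul x x⁻¹ hx (inv_ne_zero hx)
  rw [mul_inv_cancel₀ hx, V.one] at h
  omega

theorem NVal.zpow {x : K} (hx : x ≠ 0) (j : ℤ) : V.v (x ^ j) = j * V.v x := by
  induction j using Int.induction_on with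
  | zero => rw [zpow_zero, V.one, zero_mul]
  | succ i ih => rw [zpow_add_one₀ hx, V.mul _ _ (zpow_ne_zero _ hx) hx, ih]; ring
  | pred i ih =>
    rw [zpow_sub_one₀ hx, V.mul _ _ (zpow_ne_zero _ hx) (inv_ne_zero hx), ih, V.inv hx]; ring

/-- Every nonzero element is a power of the uniformiser times a unit. -/
theorem NVal.unit {x : K} (hx : x ≠ 0) :
    ∃ u : K, u ≠ 0 ∧ u ∈ O ∧ u⁻¹ ∈ O ∧ V.v u = 0 ∧ x = V.π ^ V.v x * u := by
  have h1 : V.π ^ (-V.v x) ≠ 0 := zpow_ne_zero _ V.hπ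
  have h0 : V.π ^ (-V.v x) * x ≠ 0 := mul_ne_zero h1 hx
  have hv : V.v (V.π ^ (-V.v x) * x) = 0 := by
    rw [V.mul _ _ h1 hx, V.zpow V.hπ, V.vπ]
    ring
  refine ⟨V.π ^ (-V.v x) * x, h0, (V.mem _ h0).2 hv.ge, (V.mem _ (inv_ne_zero h0)).2 ?_, hv, ?_⟩
  · rw [V.inv h0, hv, neg_zero]
  · rw [← mul_assoc, ← zpow_add₀ V.hπ, add_neg_cancel, zpow_zero, one_mul]

theorem NVal.add {x y : K} {c : ℤ} (hx : x = 0 ∨ c < V.v x) (hy : y = 0 ∨ c < V.v y) :
    x + y = 0 ∨ c < V.v (x + y) := by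
  have key : ∀ z : K, z ≠ 0 → (z * V.π ^ (-(c + 1)) ∈ O ↔ c < V.v z) := by
    intro z hz
    have h1 : V.π ^ (-(c + 1)) ≠ 0 := zpow_ne_zero _ V.hπ
    rw [V.mem _ (mul_ne_zero hz h1), V.mul _ _ hz h1, V.zpow V.hπ, V.vπ]
    constructor <;> intro h <;> linarith
  have hmem : ∀ z : K, z = 0 ∨ c < V.v z → z * V.π ^ (-(c + 1)) ∈ O := by
    intro z hz
    by_cases h0 : z = 0
    · rw [h0, zero_mul]
      exact O.zero_mem
    · exact (key z h0).2 (hz.resolve_left h0)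
  by_cases h0 : x + y = 0
  · exact Or.inl h0
  · right
    rw [← key _ h0, add_mul]
    exact O.add_mem _ _ (hmem x hx) (hmem y hy)

/-- If a finite sum of elements which are `0` or of value `> c` then it is `0` or of value
`> c`. -/
theorem NVal.sum {α : Type} (s : Finset α) (x : α → K) (c : ℤ)
    (h : ∀ i ∈ s, x i = 0 ∨ c < V.v (x i)) : ∑ i ∈ s, x i = 0 ∨ c < V.v (∑ i ∈ s, x i) := by
  classical
  induction s using Finset.induction_on with
  | empty => exact Or.inl Finset.sum_empty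
  | insert a s ha ih =>
    rw [Finset.sum_insert ha]
    exact V.add (h a (Finset.mem_insert_self a s))
      (ih fun i hi => h i (Finset.mem_insert_of_mem hi))

/-- The value of `χ` as a homomorphism `M → ℤ`. -/
noncomputable def NVal.nu {M : Type} [AddCommGroup M] (χ : Multiplicative M →* K) : M →+ ℤ where
  toFun m := V.v (χ (Multiplicative.ofAdd m))
  map_zero' := by
    have h1 : V.v 1 = 0 := by
      have h := V.mul 1 1 one_ne_zero one_ne_zero
      rw [mul_one] at h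
      linarith
    simpa using h1
  map_add' := fun a b => by
    have h0 : ∀ x : Multiplicative M, χ x ≠ 0 := fun x hx => by
      have h : χ (x * x⁻¹) = 0 := by rw [map_mul, hx, zero_mul]
      rw [mul_inv_cancel, map_one] at h
      exact one_ne_zero h
    rw [ofAdd_add, map_mul]
    exact V.mul _ _ (h0 _) (h0 _)

end T1
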