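import Pool.Agent.Lib.MP_23b606_ag.T1.A.Ext
import Pool.Agent.Lib.MP_23b606_ag.T1.A.Val

/-! A/VInd: independence of the logarithmic differentials at a generic point and at its
valuations. -/

set_option autoImplicit false

namespace T1

variable {M : Type} [AddCommGroup M] {K : Type} [Field K] [Algebra ℂ K] {ι : Type} [Fintype ι]

/-- Valuative independence: the vectors `π^(-h_i) dl χ (f i)` have linearly independent residues
at the valuation ring. -/
def VInd (f : ι → M →₀ ℂ) (χ : Multiplicative M →* K) {O : ValuationSubring K} (V : NVal O) :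
    Prop :=
  ∀ (c : ι → K) (i : ι), c i ≠ 0 → ∃ n' : M →+ ℤ, ∑ j, c j * dl χ (f j) n' ≠ 0 ∧
    V.v (∑ j, c j * dl χ (f j) n') ≤ V.v (c i) + hm (f i) (V.nu χ)

/-- What is used of the nondegeneracy: independence at `χ` and at all its valuations. -/
structure Good (f : ι → M →₀ ℂ) (χ : Multiplicative M →* K) : Prop where
  ind : LinearIndependent K fun i => dl χ (f i)
  vind : ∀ (O : ValuationSubring K) (V : NVal O), (∀ c : ℂ, algebraMap ℂ K c ∈ O) → VInd f χ V

private theorem VInd_hm_le (g : M →₀ ℂ) (n : M →+ ℤ) {m : M} (hm' : m ∈ g.support) :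
    hm g n ≤ n m := by
  unfold hm
  rw [dif_pos ⟨m, hm'⟩]
  exact Finset.inf'_le _ hm'

private theorem VInd_ini_zero (g : M →₀ ℂ) : ini g (0 : M →+ ℤ) = g := by
  unfold ini
  rw [Finsupp.filter_eq_self_iff]
  intro m hm'
  have h1 : g.support.Nonempty := ⟨m, Finsupp.mem_support_iff.2 hm'⟩
  unfold hm
  rw [dif_pos h1, AddMonoidHom.zero_apply]
  symm
  refine le_antisymm ?_ ?_
  · exact Finset.inf'_le (f := fun m => (0 : M →+ ℤ) m) (Finsupp.mem_support_iff.2 hm')
  · exact Finset.le_inf' _ _ fun b _ => le_rfl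

private theorem VInd_ne (χ : Multiplicative M →* K) (x : Multiplicative M) : χ x ≠ 0 := by
  intro hx
  have h : χ (x * x⁻¹) = 0 := by rw [map_mul, hx, zero_mul]
  rw [mul_inv_cancel, map_one] at h
  exact one_ne_zero h

section red

variable {O : ValuationSubring K} (V : NVal O) (hO : ∀ c : ℂ, algebraMap ℂ K c ∈ O)

private theorem VInd_nu (χ : Multiplicative M →* K) (m : M) :
    V.nu χ m = V.v (χ (Multiplicative.ofAdd m)) := rfl

private theorem VInd_mem (χ : Multiplicative M →* K) (x : Multiplicative M) :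
    χ x * V.π ^ (-(V.nu χ (Multiplicative.toAdd x))) ∈ O := by
  have h1 : V.π ^ (-(V.nu χ (Multiplicative.toAdd x))) ≠ 0 := zpow_ne_zero _ V.hπ
  have h2 := VInd_ne χ x
  rw [V.mem _ (mul_ne_zero h2 h1), V.mul _ _ h2 h1, V.zpow V.hπ, V.vπ, VInd_nu]
  have h3 : Multiplicative.ofAdd (Multiplicative.toAdd x) = x := ofAdd_toAdd x
  rw [h3]
  linarith

/-- the character `m ↦ χ(m) π^(-ν(m))` with values in the units of `O` -/
private noncomputable def VInd_xi (χ : Multiplicative M →* K) : Multiplicative M →* O where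
  toFun x := ⟨χ x * V.π ^ (-(V.nu χ (Multiplicative.toAdd x))), VInd_mem V χ x⟩
  map_one' := Subtype.ext (by
    change χ 1 * V.π ^ (-(V.nu χ (Multiplicative.toAdd 1))) = 1
    rw [map_one, toAdd_one, map_zero, neg_zero, zpow_zero, mul_one])
  map_mul' := fun x y => Subtype.ext (by
    change χ (x * y) * V.π ^ (-(V.nu χ (Multiplicative.toAdd (x * y)))) =
      (χ x * V.π ^ (-(V.nu χ (Multiplicative.toAdd x)))) *
        (χ y * V.π ^ (-(V.nu χ (Multiplicative.toAdd y))))
    rw [map_mul, toAdd_mul, map_add, neg_add, zpow_add₀ V.hπ]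
    ring)

/-- the reduction of the sums `π^(-h) ∑ c_m χ(m) b(m)` -/
private theorem VInd_red (χ : Multiplicative M →* K) (g : M →₀ ℂ) (b : M → ℤ) :
    ∃ s : O, (s : K) = V.π ^ (-(hm g (V.nu χ))) *
        ∑ m ∈ g.support, algebraMap ℂ K (g m) * χ (Multiplicative.ofAdd m) * ((b m : ℤ) : K) ∧
      IsLocalRing.residue O s = ∑ m ∈ (ini g (V.nu χ)).support,
        IsLocalRing.residue O ((algebraMap ℂ K).codRestrict O hO (ini g (V.nu χ) m)) *
          IsLocalRing.residue O (VInd_xi V χ (Multiplicative.ofAdd m)) *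
            ((b m : ℤ) : IsLocalRing.ResidueField O) := by
  classical
  set h := hm g (V.nu χ) with hh
  have hπO : V.π ∈ O := by
    rw [V.mem _ V.hπ, V.vπ]
    exact zero_le_one
  have hπr : IsLocalRing.residue O ⟨V.π, hπO⟩ = 0 := by
    rw [IsLocalRing.residue_eq_zero_iff, IsLocalRing.mem_maximalIdeal, mem_nonunits_iff]
    intro hu
    obtain ⟨y, hy⟩ := isUnit_iff_exists_inv.1 hu
    have hy' : V.π * (y : K) = 1 := congrArg Subtype.val hy
    have hy0 : (y : K) ≠ 0 := right_ne_zero_of_mul_eq_one hy'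
    have h1 := V.mul _ _ V.hπ hy0
    rw [hy', V.one, V.vπ] at h1
    have h2 := (V.mem _ hy0).1 y.2
    omega
  refine ⟨∑ m ∈ g.support, (algebraMap ℂ K).codRestrict O hO (g m) *
    VInd_xi V χ (Multiplicative.ofAdd m) * (b m : O) *
      (⟨V.π, hπO⟩ : O) ^ (V.nu χ m - h).toNat, ?_, ?_⟩
  · rw [AddSubmonoidClass.coe_finsetSum, Finset.mul_sum]
    refine Finset.sum_congr rfl fun m hm' => ?_
    have h1 : h ≤ V.nu χ m := VInd_hm_le g _ hm'
    have h2 : V.π ^ (V.nu χ m - h).toNat = V.π ^ (V.nu χ m) * V.π ^ (-h) := by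
      rw [← zpow_natCast, Int.toNat_of_nonneg (by omega), ← zpow_add₀ V.hπ, sub_eq_add_neg]
    change algebraMap ℂ K (g m) * (χ (Multiplicative.ofAdd m) * V.π ^ (-(V.nu χ m))) *
      ((b m : O) : K) * V.π ^ (V.nu χ m - h).toNat = _
    rw [h2]
    have h3 : ((b m : O) : K) = (b m : K) := by push_cast; rfl
    have h4 : V.π ^ (-(V.nu χ m)) * V.π ^ (V.nu χ m) = 1 := by
      rw [← zpow_add₀ V.hπ, neg_add_cancel, zpow_zero]
    rw [h3]
    calc _ = algebraMap ℂ K (g m) * χ (Multiplicative.ofAdd m) * (b m : K) *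
          (V.π ^ (-(V.nu χ m)) * V.π ^ (V.nu χ m)) * V.π ^ (-h) := by ring
      _ = _ := by rw [h4]; ring
  · have hsupp : (ini g (V.nu χ)).support = g.support.filter fun m => V.nu χ m = h := by
      unfold ini
      rw [Finsupp.support_filter]
    rw [hsupp, Finset.sum_filter, map_sum]
    refine Finset.sum_congr rfl fun m hm' => ?_
    have h1 : h ≤ V.nu χ m := VInd_hm_le g _ hm'
    rw [map_mul, map_mul, map_mul, map_pow, hπr, map_intCast]
    split_ifs with h2
    · have h3 : ini g (V.nu χ) m = g m := by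
        unfold ini
        rw [Finsupp.filter_apply, if_pos h2]
      rw [h3, h2, sub_self, Int.toNat_zero, pow_zero, mul_one]
    · rw [zero_pow (by omega), mul_zero]

end red

theorem NondegOn.good [Module.Free ℤ M] [Module.Finite ℤ M] {I : Set (M →₀ ℂ)}
    {f : ι → M →₀ ℂ} (hf : NondegOn I f)
    (χ : Multiplicative M →* K) (hz : ∀ g ∈ I, ev χ g = 0) : Good f χ := by
  classical
  refine ⟨?_, fun O V hO c i hci => ?_⟩
  · have h1 := hf.ext (κ := K) 0 χ (fun g hg => by rw [VInd_ini_zero]; exact hz g hg)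
    simpa only [VInd_ini_zero] using h1
  · let aκ : ℂ →+* IsLocalRing.ResidueField O :=
      (IsLocalRing.residue O).comp ((algebraMap ℂ K).codRestrict O hO)
    let _ : Algebra ℂ (IsLocalRing.ResidueField O) := aκ.toAlgebra
    let ξ : Multiplicative M →* IsLocalRing.ResidueField O :=
      (IsLocalRing.residue O : O →* IsLocalRing.ResidueField O).comp (VInd_xi V χ)
    set nu := V.nu χ with hnu
    have hev : ∀ g ∈ I, ev ξ (ini g nu) = 0 := by
      intro g hg
      obtain ⟨s, hs, hsr⟩ := VInd_red V hO χ g (fun _ => 1)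
      have h1 : (s : K) = 0 := by
        rw [hs]
        have h2 := hz g hg
        unfold ev Finsupp.sum at h2
        simp only [Int.cast_one, mul_one]
        rw [h2, mul_zero]
      have h2 : s = 0 := Subtype.ext h1
      rw [h2, map_zero] at hsr
      simp only [Int.cast_one, mul_one] at hsr
      exact hsr.symm
    have hind := hf.ext (κ := IsLocalRing.ResidueField O) nu ξ hev
    rw [Fintype.linearIndependent_iff] at hind
    -- the minimum
    obtain ⟨i₁, hi₁, hmin⟩ := Finset.exists_min_image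
      (Finset.univ.filter fun j => c j ≠ 0) (fun j => V.v (c j) + hm (f j) nu)
      ⟨i, Finset.mem_filter.2 ⟨Finset.mem_univ i, hci⟩⟩
    have hci₁ : c i₁ ≠ 0 := (Finset.mem_filter.1 hi₁).2
    set mu := V.v (c i₁) + hm (f i₁) nu with hmu
    have hvc : ∀ j, c j ≠ 0 → V.v (c j * V.π ^ (hm (f j) nu - mu)) =
        V.v (c j) + hm (f j) nu - mu := by
      intro j hj
      rw [V.mul _ _ hj (zpow_ne_zero _ V.hπ), V.zpow V.hπ, V.vπ]
      ring
    have hcO : ∀ j, c j * V.π ^ (hm (f j) nu - mu) ∈ O := by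
      intro j
      by_cases hj : c j = 0
      · rw [hj, zero_mul]
        exact O.zero_mem
      · rw [V.mem _ (mul_ne_zero hj (zpow_ne_zero _ V.hπ)), hvc j hj]
        have h1 := hmin j (Finset.mem_filter.2 ⟨Finset.mem_univ j, hj⟩)
        omega
    have hunit : ∀ t : O, IsLocalRing.residue O t ≠ 0 → (t : K) ≠ 0 ∧ V.v (t : K) = 0 := by
      intro t ht
      have ht0 : (t : K) ≠ 0 := by
        intro h0
        have h1 : t = 0 := Subtype.ext h0
        exact ht (by rw [h1, map_zero])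
      refine ⟨ht0, ?_⟩
      have hu : IsUnit t := by
        by_contra hnu'
        refine ht ?_
        rw [IsLocalRing.residue_eq_zero_iff, IsLocalRing.mem_maximalIdeal, mem_nonunits_iff]
        exact hnu'
      obtain ⟨y, hy⟩ := isUnit_iff_exists_inv.1 hu
      have hy' : (t : K) * (y : K) = 1 := congrArg Subtype.val hy
      have hy0 : (y : K) ≠ 0 := right_ne_zero_of_mul_eq_one hy'
      have h1 := V.mul _ _ ht0 hy0
      rw [hy', V.one] at h1
      have h2 := (V.mem _ hy0).1 y.2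
      have h3 := (V.mem _ ht0).1 t.2
      omega
    have hr1 : IsLocalRing.residue O ⟨_, hcO i₁⟩ ≠ 0 := by
      intro h0
      rw [IsLocalRing.residue_eq_zero_iff, IsLocalRing.mem_maximalIdeal, mem_nonunits_iff] at h0
      have hne : c i₁ * V.π ^ (hm (f i₁) nu - mu) ≠ 0 := mul_ne_zero hci₁ (zpow_ne_zero _ V.hπ)
      have hinv : (c i₁ * V.π ^ (hm (f i₁) nu - mu))⁻¹ ∈ O := by
        rw [V.mem _ (inv_ne_zero hne), V.inv hne, hvc i₁ hci₁]
        omega
      refine h0 (isUnit_iff_exists_inv.2 ⟨⟨_, hinv⟩, Subtype.ext ?_⟩)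
      exact mul_inv_cancel₀ hne
    obtain ⟨n', hn'⟩ : ∃ n' : M →+ ℤ, ∑ j, IsLocalRing.residue O ⟨_, hcO j⟩ *
        dl ξ (ini (f j) nu) n' ≠ 0 := by
      by_contra hcon
      refine hr1 (hind (fun j => IsLocalRing.residue O ⟨_, hcO j⟩) (funext fun n' => ?_) i₁)
      by_contra h1
      refine hcon ⟨n', ?_⟩
      rw [Finset.sum_apply] at h1
      exact h1
    have hs : ∀ j, ∃ s : O, (s : K) = V.π ^ (-(hm (f j) nu)) * dl χ (f j) n' ∧
        IsLocalRing.residue O s = dl ξ (ini (f j) nu) n' := by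
      intro j
      obtain ⟨s, hs, hsr⟩ := VInd_red V hO χ (f j) n'
      exact ⟨s, hs, hsr⟩
    choose s hs hsr using hs
    have ht := hunit (∑ j, ⟨_, hcO j⟩ * s j) (by
      rw [map_sum]
      simp only [map_mul, hsr]
      exact hn')
    have hsum : ∑ j, c j * dl χ (f j) n' =
        V.π ^ mu * ((∑ j, ⟨_, hcO j⟩ * s j : O) : K) := by
      rw [AddSubmonoidClass.coe_finsetSum, Finset.mul_sum]
      refine Finset.sum_congr rfl fun j _ => ?_
      change _ = V.π ^ mu * (c j * V.π ^ (hm (f j) nu - mu) * (s j : K))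
      rw [hs j]
      have h1 : V.π ^ mu * V.π ^ (hm (f j) nu - mu) * V.π ^ (-(hm (f j) nu)) = 1 := by
        rw [← zpow_add₀ V.hπ, ← zpow_add₀ V.hπ]
        have h2 : mu + (hm (f j) nu - mu) + -(hm (f j) nu) = 0 := by ring
        rw [h2, zpow_zero]
      calc c j * dl χ (f j) n' = c j * dl χ (f j) n' * 1 := (mul_one _).symm
        _ = _ := by rw [← h1]; ring
    refine ⟨n', ?_, ?_⟩
    · rw [hsum]
      exact mul_ne_zero (zpow_ne_zero _ V.hπ) ht.1
    · rw [hsum, V.mul _ _ (zpow_ne_zero _ V.hπ) ht.1, ht.2, V.zpow V.hπ, V.vπ, mul_one, add_zero]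
      exact hmin i (Finset.mem_filter.2 ⟨Finset.mem_univ i, hci⟩)

theorem Nondeg.good [Module.Free ℤ M] [Module.Finite ℤ M] {f : ι → M →₀ ℂ} (hf : Nondeg f)
    (χ : Multiplicative M →* K) (hz : ∀ i, ev χ (f i) = 0) : Good f χ := by
  have h1 : NondegOn (Set.range f) f := fun n ξ hξ => hf n ξ fun i => hξ _ ⟨i, rfl⟩
  refine h1.good χ ?_
  rintro _ ⟨i, rfl⟩
  exact hz i

end T1
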