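import Pool.Agent.Lib.MP_23b606_ag.T1.S.Sys
import Pool.Agent.Lib.MP_5d4057_al.DR.Der

/-! A/Om: the Kähler differentials of the function field. -/

set_option autoImplicit false

open scoped KaehlerDifferential

namespace T1

/-- Differentials of algebraically independent elements are linearly independent. -/
theorem linearIndependent_D {K : Type} [Field K] [Algebra ℂ K] {q : Type} (x : q → K)
    (hx : AlgebraicIndependent ℂ x) :
    LinearIndependent K fun i => KaehlerDifferential.D ℂ K (x i) := by
  classical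
  have h1 : AlgebraicIndependent ℂ (fun y : Set.range x => (y : K)) := hx.coe_range
  obtain ⟨B, hB, hBB⟩ := exists_isTranscendenceBasis_superset h1
  rw [linearIndependent_iff']
  intro s c hc i hi
  obtain ⟨D, hD⟩ := Pool.Agent.Lib.MP_5d4057_al.DR.exists_der_basis hBB
    (fun y => if (y : K) = x i then 1 else 0)
  have hDx : ∀ j, D (x j) = if x j = x i then 1 else 0 := fun j => hD ⟨x j, hB ⟨j, rfl⟩⟩
  have h2 := congrArg D.liftKaehlerDifferential hc
  rw [map_sum, map_zero] at h2
  simp only [map_smul, Derivation.liftKaehlerDifferential_comp_D, hDx, smul_eq_mul] at h2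
  rw [Finset.sum_eq_single i] at h2
  · simpa using h2
  · intro j _ hj
    rw [if_neg (fun h => hj (hx.injective h)), mul_zero]
  · exact fun h => absurd hi h

variable {M : Type} [AddCommGroup M] {K : Type} [Field K] [Algebra ℂ K] {d : ℕ}

/-- The map `u ↦ ∑ u_j dlog χ(b_j)`. -/
noncomputable def om (b : Module.Basis (Fin d) ℤ M) (χ : Multiplicative M →* K) :
    (Fin d → K) →ₗ[K] Ω[K⁄ℂ] :=
  Fintype.linearCombination K fun j =>
    (χ (Multiplicative.ofAdd (b j)))⁻¹ • KaehlerDifferential.D ℂ K (χ (Multiplicative.ofAdd (b j)))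

/-- The coordinates of the logarithmic differential. -/
noncomputable def row (b : Module.Basis (Fin d) ℤ M) (χ : Multiplicative M →* K)
    (g : M →₀ ℂ) : Fin d → K :=
  fun j => dl χ g (b.coord j).toAddMonoidHom

theorem dl_eq_sum_row (b : Module.Basis (Fin d) ℤ M) (χ : Multiplicative M →* K) (g : M →₀ ℂ)
    (n' : M →+ ℤ) : dl χ g n' = ∑ j, ((n' (b j) : ℤ) : K) * row b χ g j := by
  have h1 : ∀ m : M, n' m = ∑ j, n' (b j) * b.coord j m := by
    intro m
    conv_lhs => rw [← b.sum_repr m]
    rw [map_sum]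
    refine Finset.sum_congr rfl fun j _ => ?_
    rw [map_zsmul, smul_eq_mul, mul_comm]
    rfl
  simp only [row, dl, Finsupp.sum, Finset.mul_sum]
  rw [Finset.sum_comm]
  refine Finset.sum_congr rfl fun m _ => ?_
  rw [h1 m, Int.cast_sum, Finset.mul_sum]
  refine Finset.sum_congr rfl fun j _ => ?_
  rw [Int.cast_mul]
  have : ((b.coord j).toAddMonoidHom m : ℤ) = b.coord j m := rfl
  rw [this]
  ring

omit [Algebra ℂ K] in
theorem om_chi_ne (χ : Multiplicative M →* K) (m : M) : χ (Multiplicative.ofAdd m) ≠ 0 := by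
  intro h
  have h1 : χ (Multiplicative.ofAdd m) * χ (Multiplicative.ofAdd (-m)) = 1 := by
    rw [← map_mul, ← ofAdd_add, add_neg_cancel, ofAdd_zero, map_one]
  rw [h, zero_mul] at h1
  exact zero_ne_one h1

/-- The logarithmic differential of the character, as an additive map. -/
noncomputable def odlog (χ : Multiplicative M →* K) : M →+ Ω[K⁄ℂ] where
  toFun m := (χ (Multiplicative.ofAdd m))⁻¹ • KaehlerDifferential.D ℂ K (χ (Multiplicative.ofAdd m))
  map_zero' := by
    rw [ofAdd_zero, map_one, Derivation.map_one_eq_zero, smul_zero]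
  map_add' m m' := by
    have h1 := om_chi_ne χ m
    have h2 := om_chi_ne χ m'
    rw [ofAdd_add, map_mul, Derivation.leibniz, smul_add, smul_smul, smul_smul, add_comm]
    congr 2 <;> field_simp

theorem om_D_chi (χ : Multiplicative M →* K) (m : M) :
    KaehlerDifferential.D ℂ K (χ (Multiplicative.ofAdd m))
      = χ (Multiplicative.ofAdd m) • odlog χ m := by
  show _ = χ (Multiplicative.ofAdd m) • ((χ (Multiplicative.ofAdd m))⁻¹ •
    KaehlerDifferential.D ℂ K (χ (Multiplicative.ofAdd m)))
  rw [smul_smul, mul_inv_cancel₀ (om_chi_ne χ m), one_smul]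

theorem om_apply (b : Module.Basis (Fin d) ℤ M) (χ : Multiplicative M →* K) (u : Fin d → K) :
    om b χ u = ∑ j, u j • odlog χ (b j) := by
  rw [om, Fintype.linearCombination_apply]
  rfl

theorem odlog_eq (b : Module.Basis (Fin d) ℤ M) (χ : Multiplicative M →* K) (m : M) :
    odlog χ m = ∑ j, ((b.coord j m : ℤ) : K) • odlog χ (b j) := by
  conv_lhs => rw [← b.sum_repr m]
  rw [map_sum]
  refine Finset.sum_congr rfl fun j _ => ?_
  rw [map_zsmul, Int.cast_smul_eq_zsmul]
  rfl

theorem om_row (b : Module.Basis (Fin d) ℤ M) (χ : Multiplicative M →* K) (g : M →₀ ℂ) :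
    om b χ (row b χ g) = KaehlerDifferential.D ℂ K (ev χ g) := by
  rw [om_apply]
  simp only [row, dl, ev, Finsupp.sum, map_sum, Finset.sum_smul]
  rw [Finset.sum_comm]
  refine Finset.sum_congr rfl fun m _ => ?_
  rw [Derivation.leibniz, Derivation.map_algebraMap, smul_zero, add_zero, om_D_chi, smul_smul,
    odlog_eq b χ m, Finset.smul_sum]
  refine Finset.sum_congr rfl fun j _ => ?_
  rw [smul_smul]
  rfl

theorem om_single (b : Module.Basis (Fin d) ℤ M) (χ : Multiplicative M →* K) (j : Fin d) :
    KaehlerDifferential.D ℂ K (χ (Multiplicative.ofAdd (b j)))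
      = χ (Multiplicative.ofAdd (b j)) • om b χ (Pi.single j 1) := by
  rw [om_D_chi, om_apply, Finset.sum_eq_single j]
  · rw [Pi.single_eq_same, one_smul]
  · intro i _ hi
    rw [Pi.single_eq_of_ne hi, zero_smul]
  · exact fun h => absurd (Finset.mem_univ j) h

theorem om_surjective (b : Module.Basis (Fin d) ℤ M) (χ : Multiplicative M →* K)
    (hgen : IntermediateField.adjoin ℂ (Set.range χ) = ⊤) : Function.Surjective (om b χ) := by
  have hadd : ∀ x y : K, KaehlerDifferential.D ℂ K x ∈ LinearMap.range (om b χ) →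
      KaehlerDifferential.D ℂ K y ∈ LinearMap.range (om b χ) →
      KaehlerDifferential.D ℂ K (x + y) ∈ LinearMap.range (om b χ) := fun x y hx hy => by
    rw [map_add]
    exact add_mem hx hy
  have hmul : ∀ x y : K, KaehlerDifferential.D ℂ K x ∈ LinearMap.range (om b χ) →
      KaehlerDifferential.D ℂ K y ∈ LinearMap.range (om b χ) →
      KaehlerDifferential.D ℂ K (x * y) ∈ LinearMap.range (om b χ) := fun x y hx hy => by
    rw [Derivation.leibniz]
    exact add_mem (Submodule.smul_mem _ _ hy) (Submodule.smul_mem _ _ hx)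
  have hinv : ∀ x : K, KaehlerDifferential.D ℂ K x ∈ LinearMap.range (om b χ) →
      KaehlerDifferential.D ℂ K x⁻¹ ∈ LinearMap.range (om b χ) := fun x hx => by
    rw [Derivation.leibniz_inv]
    exact Submodule.smul_mem _ _ hx
  have halg : ∀ r : ℂ, KaehlerDifferential.D ℂ K (algebraMap ℂ K r) ∈
      LinearMap.range (om b χ) := fun r => by
    rw [Derivation.map_algebraMap]
    exact zero_mem _
  let F : IntermediateField ℂ K :=
    { carrier := {x | KaehlerDifferential.D ℂ K x ∈ LinearMap.range (om b χ)}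
      mul_mem' := fun {x y} hx hy => hmul x y hx hy
      add_mem' := fun {x y} hx hy => hadd x y hx hy
      algebraMap_mem' := halg
      inv_mem' := hinv }
  have hF : F = ⊤ := by
    rw [eq_top_iff, ← hgen, IntermediateField.adjoin_le_iff]
    rintro _ ⟨m, rfl⟩
    show KaehlerDifferential.D ℂ K (χ m) ∈ LinearMap.range (om b χ)
    have h1 := om_D_chi χ (Multiplicative.toAdd m)
    rw [ofAdd_toAdd] at h1
    rw [h1]
    refine Submodule.smul_mem _ _ ?_
    rw [odlog_eq b χ]
    exact ⟨fun j => ((b.coord j (Multiplicative.toAdd m) : ℤ) : K), om_apply b χ _⟩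
  rw [← LinearMap.range_eq_top, eq_top_iff, ← KaehlerDifferential.span_range_derivation ℂ K,
    Submodule.span_le]
  rintro _ ⟨x, rfl⟩
  have hx : x ∈ F := by rw [hF]; trivial
  exact hx

variable {ι : Type} [Fintype ι] {f : ι → M →₀ ℂ}

theorem row_independent (b : Module.Basis (Fin d) ℤ M) (χ : Multiplicative M →* K)
    (hI : LinearIndependent K fun i => dl χ (f i)) :
    LinearIndependent K fun i => row b χ (f i) := by
  let T : (Fin d → K) →ₗ[K] ((M →+ ℤ) → K) :=
    LinearMap.pi fun n' => Fintype.linearCombination K fun j => ((n' (b j) : ℤ) : K)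
  refine LinearIndependent.of_comp T ?_
  have h1 : (T ∘ fun i => row b χ (f i)) = fun i => dl χ (f i) := by
    funext i n'
    show Fintype.linearCombination K (fun j => ((n' (b j) : ℤ) : K)) (row b χ (f i)) = _
    rw [Fintype.linearCombination_apply, dl_eq_sum_row b χ (f i) n']
    exact Finset.sum_congr rfl fun j _ => by rw [smul_eq_mul, mul_comm]
  rw [h1]
  exact hI

theorem om_trdeg_le_rank (K : Type) [Field K] [Algebra ℂ K] :
    Algebra.trdeg ℂ K ≤ Module.rank K Ω[K⁄ℂ] := by
  obtain ⟨q, x, hx⟩ := exists_isTranscendenceBasis' ℂ K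
  rw [← hx.cardinalMk_eq_trdeg]
  exact (linearIndependent_D x hx.1).cardinal_le_rank

theorem om_row_mem_ker (b : Module.Basis (Fin d) ℤ M) (χ : Multiplicative M →* K)
    {g : M →₀ ℂ} (hz : ev χ g = 0) : row b χ g ∈ LinearMap.ker (om b χ) := by
  rw [LinearMap.mem_ker, om_row, hz, map_zero]

theorem om_finrank_add (b : Module.Basis (Fin d) ℤ M) (χ : Multiplicative M →* K)
    (hgen : IntermediateField.adjoin ℂ (Set.range χ) = ⊤) :
    Module.Finite K Ω[K⁄ℂ] ∧
      Module.finrank K Ω[K⁄ℂ] + Module.finrank K (LinearMap.ker (om b χ)) = d := by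
  have hs := om_surjective b χ hgen
  refine ⟨Module.Finite.of_surjective (om b χ) hs, ?_⟩
  have h1 := LinearMap.finrank_range_add_finrank_ker (om b χ)
  rw [LinearMap.range_eq_top.mpr hs, finrank_top, Module.finrank_fin_fun] at h1
  exact h1

theorem om_card_le_ker (b : Module.Basis (Fin d) ℤ M) (χ : Multiplicative M →* K)
    (hI : LinearIndependent K fun i => dl χ (f i)) (hz : ∀ i, ev χ (f i) = 0) :
    Fintype.card ι ≤ Module.finrank K (LinearMap.ker (om b χ)) := by
  have h1 : LinearIndependent K
      fun i => (⟨row b χ (f i), om_row_mem_ker b χ (hz i)⟩ : LinearMap.ker (om b χ)) := by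
    refine LinearIndependent.of_comp (LinearMap.ker (om b χ)).subtype ?_
    exact row_independent b χ hI
  exact h1.fintype_card_le_finrank

/-- The transcendence degree of a field generated by a point of `{f = 0}` at which the
logarithmic differentials are independent. -/
theorem trdeg_add_le (b : Module.Basis (Fin d) ℤ M) (χ : Multiplicative M →* K)
    (hI : LinearIndependent K fun i => dl χ (f i)) (hz : ∀ i, ev χ (f i) = 0)
    (hgen : IntermediateField.adjoin ℂ (Set.range χ) = ⊤) :
    Algebra.trdeg ℂ K + (Fintype.card ι : Cardinal) ≤ (d : Cardinal) := by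
  obtain ⟨hfin, hd⟩ := om_finrank_add b χ hgen
  have h1 := om_trdeg_le_rank K
  rw [← Module.finrank_eq_rank] at h1
  have h2 := om_card_le_ker b χ hI hz
  calc Algebra.trdeg ℂ K + (Fintype.card ι : Cardinal)
      ≤ (Module.finrank K Ω[K⁄ℂ] : Cardinal) + (Fintype.card ι : Cardinal) := by gcongr
    _ = ((Module.finrank K Ω[K⁄ℂ] + Fintype.card ι : ℕ) : Cardinal) := by push_cast; rfl
    _ ≤ (d : Cardinal) := by
      rw [Nat.cast_le]
      omega

theorem ker_om [Module.Free ℤ M] [Module.Finite ℤ M] (b : Module.Basis (Fin d) ℤ M)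
    (χ : Multiplicative M →* K)
    (hI : LinearIndependent K fun i => dl χ (f i)) {n : ℕ} (hχ : Pt f χ n) :
    LinearMap.ker (om b χ) = Submodule.span K (Set.range fun i => row b χ (f i)) ∧
      Module.finrank K Ω[K⁄ℂ] = n ∧ Module.Finite K Ω[K⁄ℂ] := by
  obtain ⟨hfin, hd⟩ := om_finrank_add b χ hχ.gen
  have h1 := om_trdeg_le_rank K
  rw [← Module.finrank_eq_rank, hχ.trd, Nat.cast_le] at h1
  have h2 := om_card_le_ker b χ hI hχ.zero
  have h3 : Module.finrank ℤ M = d := by
    rw [Module.finrank_eq_card_basis b, Fintype.card_fin]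
  have h4 := hχ.dim
  refine ⟨?_, by omega, hfin⟩
  symm
  refine Submodule.eq_of_le_of_finrank_eq ?_ ?_
  · rw [Submodule.span_le]
    rintro _ ⟨i, rfl⟩
    exact om_row_mem_ker b χ (hχ.zero i)
  · rw [finrank_span_eq_card (row_independent b χ hI)]
    omega

end T1
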