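import Pool.Agent.Lib.MP_23b606_ag.T1.A.Om
import Pool.Agent.Lib.MP_23b606_ag.T1.A.Stz

/-! A/El: the linear form on the top exterior power. -/

set_option autoImplicit false

open scoped KaehlerDifferential

namespace T1

variable {M : Type} [AddCommGroup M] {K : Type} [Field K] [Algebra ℂ K] {d : ℕ}
  {ι : Type} [Fintype ι]

open Classical in
/-- The determinant of the rows `u_1, .., u_n, R_i`. -/
noncomputable def dt (b : Module.Basis (Fin d) ℤ M) (χ : Multiplicative M →* K)
    (f : ι → M →₀ ℂ) {n : ℕ} (e : Fin n ⊕ ι ≃ Fin d) (u : Fin n → Fin d → K) : K :=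
  Matrix.det (Matrix.of fun x y : Fin n ⊕ ι => Sum.elim u (fun i => row b χ (f i)) x (e y))

open Classical in
/-- The determinant as an alternating map of all rows. -/
private noncomputable def elAll {n : ℕ} (e : Fin n ⊕ ι ≃ Fin d) :
    (Fin d → K) [⋀^(Fin n ⊕ ι)]→ₗ[K] K :=
  (Matrix.detRowAlternating (n := Fin n ⊕ ι) (R := K)).compLinearMap (LinearMap.funLeft K K e)

private theorem dt_eq_elAll (b : Module.Basis (Fin d) ℤ M) (χ : Multiplicative M →* K)
    (f : ι → M →₀ ℂ) {n : ℕ} (e : Fin n ⊕ ι ≃ Fin d) (u : Fin n → Fin d → K) :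
    dt b χ f e u = elAll e (Sum.elim u fun i => row b χ (f i)) := rfl

/-- The determinant as an alternating map of the first `n` rows. -/
private noncomputable def elA (b : Module.Basis (Fin d) ℤ M) (χ : Multiplicative M →* K)
    (f : ι → M →₀ ℂ) {n : ℕ} (e : Fin n ⊕ ι ≃ Fin d) : (Fin d → K) [⋀^Fin n]→ₗ[K] K where
  toFun u := dt b χ f e u
  map_update_add' {inst} u i x y := by
    classical
    simp only [dt_eq_elAll]
    have hi : inst = (fun a b => instDecidableEqFin n a b) := Subsingleton.elim _ _
    subst hi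
    rw [Sum.elim_update_left, Sum.elim_update_left, Sum.elim_update_left]
    exact (elAll e).map_update_add _ _ _ _
  map_update_smul' {inst} u i c x := by
    classical
    simp only [dt_eq_elAll]
    have hi : inst = (fun a b => instDecidableEqFin n a b) := Subsingleton.elim _ _
    subst hi
    rw [Sum.elim_update_left, Sum.elim_update_left]
    exact (elAll e).map_update_smul _ _ _ _
  map_eq_zero_of_eq' u i j h hij := by
    rw [dt_eq_elAll]
    exact (elAll e).map_eq_zero_of_eq _ (i := Sum.inl i) (j := Sum.inl j) (by simpa using h)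
      (fun h2 => hij (Sum.inl_injective h2))

private theorem elA_apply (b : Module.Basis (Fin d) ℤ M) (χ : Multiplicative M →* K)
    (f : ι → M →₀ ℂ) {n : ℕ} (e : Fin n ⊕ ι ≃ Fin d) (u : Fin n → Fin d → K) :
    elA b χ f e u = dt b χ f e u := rfl

private theorem elA_zero (b : Module.Basis (Fin d) ℤ M) (χ : Multiplicative M →* K)
    (f : ι → M →₀ ℂ) {n : ℕ} (e : Fin n ⊕ ι ≃ Fin d) (u : Fin n → Fin d → K) (i : Fin n)
    (v : Fin d → K) (hv : v ∈ Submodule.span K (Set.range fun i => row b χ (f i))) :
    elA b χ f e (Function.update u i v) = 0 := by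
  classical
  have h1 : Submodule.span K (Set.range fun i => row b χ (f i))
      ≤ LinearMap.ker ((elA b χ f e).toMultilinearMap.toLinearMap u i) := by
    rw [Submodule.span_le]
    rintro _ ⟨j, rfl⟩
    rw [SetLike.mem_coe, LinearMap.mem_ker, MultilinearMap.toLinearMap_apply]
    change elA b χ f e (Function.update u i (row b χ (f j))) = 0
    rw [elA_apply, dt_eq_elAll]
    refine (elAll e).map_eq_zero_of_eq _ (i := Sum.inl i) (j := Sum.inr j) ?_ (by simp)
    simp
  have h2 := h1 hv
  rw [LinearMap.mem_ker, MultilinearMap.toLinearMap_apply] at h2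
  exact h2

private theorem elA_congr (b : Module.Basis (Fin d) ℤ M) (χ : Multiplicative M →* K)
    (f : ι → M →₀ ℂ) {n : ℕ} (e : Fin n ⊕ ι ≃ Fin d) (u u' : Fin n → Fin d → K)
    (h : ∀ i, u' i - u i ∈ Submodule.span K (Set.range fun i => row b χ (f i))) :
    elA b χ f e u' = elA b χ f e u := by
  classical
  have key : ∀ s : Finset (Fin n), elA b χ f e (s.piecewise u' u) = elA b χ f e u := by
    intro s
    induction s using Finset.induction_on with
    | empty => rw [Finset.piecewise_empty]
    | insert i s hi ih =>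
      rw [Finset.piecewise_insert, ← ih]
      have h1 : s.piecewise u' u = Function.update (s.piecewise u' u) i (u i) := by
        rw [eq_comm, Function.update_eq_self_iff, Finset.piecewise_eq_of_notMem _ _ _ hi]
      have h2 : u' i = (u' i - u i) + u i := by abel
      rw [h2, AlternatingMap.map_update_add, elA_zero _ _ _ _ _ _ _ (h i), zero_add, ← h1]
  have := key Finset.univ
  rwa [Finset.piecewise_univ] at this

theorem exists_ell [Module.Free ℤ M] [Module.Finite ℤ M] {f : ι → M →₀ ℂ}
    (b : Module.Basis (Fin d) ℤ M) (χ : Multiplicative M →* K)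
    (hI : LinearIndependent K fun i => dl χ (f i)) {n : ℕ} (hχ : Pt f χ n)
    (e : Fin n ⊕ ι ≃ Fin d) :
    ∃ l : ⋀[K]^n Ω[K⁄ℂ] →ₗ[K] K, Function.Injective l ∧ ∀ u : Fin n → Fin d → K,
      l (exteriorPower.ιMulti K n fun i => om b χ (u i)) = dt b χ f e u := by
  classical
  obtain ⟨hker, hrank, hfin⟩ := ker_om b χ hI hχ
  obtain ⟨sec, hsec⟩ := LinearMap.exists_rightInverse_of_surjective (om b χ)
    (LinearMap.range_eq_top.mpr (om_surjective b χ hχ.gen))
  have hsec' : ∀ w, om b χ (sec w) = w := fun w => by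
    have := LinearMap.congr_fun hsec w
    simpa using this
  set l : ⋀[K]^n Ω[K⁄ℂ] →ₗ[K] K :=
    exteriorPower.alternatingMapLinearEquiv ((elA b χ f e).compLinearMap sec) with hl
  have hlu : ∀ u : Fin n → Fin d → K,
      l (exteriorPower.ιMulti K n fun i => om b χ (u i)) = dt b χ f e u := by
    intro u
    rw [hl, exteriorPower.alternatingMapLinearEquiv_apply_ιMulti, AlternatingMap.compLinearMap_apply,
      ← elA_apply]
    apply elA_congr
    intro i
    rw [← hker, LinearMap.mem_ker, map_sub, hsec', sub_self]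
  refine ⟨l, ?_, hlu⟩
  obtain ⟨s, hs⟩ := exists_unit_minor (fun i => row b χ (f i)) (row_independent b χ hI) e
  have hdt : dt b χ f e (fun i => Pi.single (s i) 1) ≠ 0 := hs
  have hl0 : l ≠ 0 := by
    intro h0
    apply hdt
    rw [← hlu, h0, LinearMap.zero_apply]
  have hfr : Module.finrank K (⋀[K]^n Ω[K⁄ℂ]) = Module.finrank K K := by
    rw [exteriorPower.finrank_eq, hrank, Nat.choose_self, Module.finrank_self]
  exact (LinearMap.injective_iff_surjective_of_finrank_eq_finrank hfr).mpr
    (LinearMap.surjective hl0)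

end T1
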