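import Pool.Agent.Lib.MP_23b606_ag.T1.S.Sys

/-! A/Ext: nondegeneracy at points over extension fields. -/

set_option autoImplicit false

namespace T1

section ext

variable {M : Type} [AddCommGroup M]

theorem ext_ev {R S : Type} [CommRing R] [Algebra ℂ R] [CommRing S] [Algebra ℂ S]
    (φ : R →ₐ[ℂ] S) (ξ : Multiplicative M →* R) (θ : Multiplicative M →* S)
    (hθ : ∀ m, θ m = φ (ξ m)) (f : M →₀ ℂ) : ev θ f = φ (ev ξ f) := by
  simp only [ev, Finsupp.sum, map_sum, map_mul, AlgHom.commutes, hθ]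

theorem ext_dl {R S : Type} [CommRing R] [Algebra ℂ R] [CommRing S] [Algebra ℂ S]
    (φ : R →ₐ[ℂ] S) (ξ : Multiplicative M →* R) (θ : Multiplicative M →* S)
    (hθ : ∀ m, θ m = φ (ξ m)) (f : M →₀ ℂ) (n' : M →+ ℤ) : dl θ f n' = φ (dl ξ f n') := by
  simp only [dl, Finsupp.sum, map_sum, map_mul, AlgHom.commutes, hθ, map_intCast]

/-- The values of a character on a finitely generated group generate a finitely generated
algebra. -/
theorem ext_mem [Module.Finite ℤ M] {κ : Type} [Field κ] [Algebra ℂ κ]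
    (ξ : Multiplicative M →* κ) : ∃ S : Set κ, S.Finite ∧ ∀ T : Subalgebra ℂ κ, S ⊆ T →
      ∀ m, ξ m ∈ T := by
  obtain ⟨N, s, hs⟩ := Module.Finite.exists_fin (R := ℤ) (M := M)
  refine ⟨Set.range (fun i => ξ (Multiplicative.ofAdd (s i))) ∪
    Set.range (fun i => ξ (Multiplicative.ofAdd (-(s i)))),
    (Set.finite_range _).union (Set.finite_range _), fun T hT m => ?_⟩
  have key : ∀ x ∈ Submodule.span ℤ (Set.range s),
      ξ (Multiplicative.ofAdd x) ∈ T ∧ ξ (Multiplicative.ofAdd (-x)) ∈ T := by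
    intro x hx
    induction hx using Submodule.span_induction with
    | mem x hx =>
      obtain ⟨i, rfl⟩ := hx
      exact ⟨hT (Or.inl ⟨i, rfl⟩), hT (Or.inr ⟨i, rfl⟩)⟩
    | zero =>
      rw [neg_zero, ofAdd_zero, map_one]
      exact ⟨T.one_mem, T.one_mem⟩
    | add x y _ _ hx hy =>
      rw [neg_add, ofAdd_add, ofAdd_add, map_mul, map_mul]
      exact ⟨T.mul_mem hx.1 hy.1, T.mul_mem hx.2 hy.2⟩
    | smul a x _ hx =>
      have hn : ∀ k : ℕ, ξ (Multiplicative.ofAdd ((k : ℤ) • x)) ∈ T ∧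
          ξ (Multiplicative.ofAdd (-((k : ℤ) • x))) ∈ T := by
        intro k
        rw [natCast_zsmul, ← smul_neg, ofAdd_nsmul, ofAdd_nsmul, map_pow, map_pow]
        exact ⟨T.pow_mem hx.1 k, T.pow_mem hx.2 k⟩
      rcases Int.eq_nat_or_neg a with ⟨k, rfl | rfl⟩
      · exact hn k
      · rw [neg_smul, neg_neg]
        exact ⟨(hn k).2, (hn k).1⟩
  have h1 := (key (Multiplicative.toAdd m) (by rw [hs]; exact Submodule.mem_top)).1
  rwa [ofAdd_toAdd] at h1

/-- Nullstellensatz. -/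
theorem ext_point {R : Type} [CommRing R] [Nontrivial R] [Algebra ℂ R]
    [Algebra.FiniteType ℂ R] : Nonempty (R →ₐ[ℂ] ℂ) := by
  obtain ⟨m, hm⟩ := Ideal.exists_maximal R
  let _ : Field (R ⧸ m) := Ideal.Quotient.field m
  have : Module.Finite ℂ (R ⧸ m) := finite_of_finite_type_of_isJacobsonRing ℂ (R ⧸ m)
  exact ⟨(IsAlgClosed.lift (R := ℂ) (S := R ⧸ m) (M := ℂ)).comp (Ideal.Quotient.mkₐ ℂ m)⟩

end ext

/-- Nondegeneracy at the points where the initial forms of all elements of `I` vanish. -/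
def NondegOn {M : Type} [AddCommGroup M] {ι : Type} (I : Set (M →₀ ℂ)) (f : ι → M →₀ ℂ) : Prop :=
  ∀ (n : M →+ ℤ) (ξ : Multiplicative M →* ℂ),
    (∀ g ∈ I, ev ξ (ini g n) = 0) → LinearIndependent ℂ fun i => dl ξ (ini (f i) n)

theorem NondegOn.ext {M : Type} [AddCommGroup M] [Module.Free ℤ M] [Module.Finite ℤ M] {ι : Type}
    [Finite ι] {I : Set (M →₀ ℂ)} {f : ι → M →₀ ℂ} (hf : NondegOn I f) {κ : Type} [Field κ]
    [Algebra ℂ κ]
    (n : M →+ ℤ) (ξ : Multiplicative M →* κ) (h : ∀ g ∈ I, ev ξ (ini g n) = 0) :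
    LinearIndependent κ fun i => dl ξ (ini (f i) n) := by
  have := Fintype.ofFinite ι
  rw [Fintype.linearIndependent_iff]
  intro c hc
  by_contra hcon
  push Not at hcon
  obtain ⟨i0, hi0⟩ := hcon
  obtain ⟨S, hS, hST⟩ := ext_mem ξ
  obtain ⟨T, hT⟩ : ∃ T, T = Algebra.adjoin ℂ (S ∪ Set.range c ∪ {(c i0)⁻¹}) := ⟨_, rfl⟩
  have hsub : S ∪ Set.range c ∪ {(c i0)⁻¹} ⊆ T := by
    rw [hT]
    exact Algebra.subset_adjoin
  have hfg : T.FG := by
    rw [Subalgebra.fg_def]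
    exact ⟨_, (hS.union (Set.finite_range c)).union (Set.finite_singleton _), hT.symm⟩
  have hft : Algebra.FiniteType ℂ T := (Subalgebra.fg_iff_finiteType T).1 hfg
  obtain ⟨ρ⟩ := ext_point (R := T)
  have hξ : ∀ m, ξ m ∈ T := hST T (fun x hx => hsub (Or.inl (Or.inl hx)))
  have hcT : ∀ i, c i ∈ T := fun i => hsub (Or.inl (Or.inr ⟨i, rfl⟩))
  have hiT : (c i0)⁻¹ ∈ T := hsub (Or.inr rfl)
  let ξ' : Multiplicative M →* T := ξ.codRestrict T.toSubmonoid hξ
  have hξ' : ∀ m, ξ m = T.val (ξ' m) := fun m => rfl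
  let θ : Multiplicative M →* ℂ := (ρ : T →* ℂ).comp ξ'
  have hθ : ∀ m, θ m = ρ (ξ' m) := fun m => rfl
  have hinj : Function.Injective T.val := Subtype.val_injective
  have h0 : ∀ g ∈ I, ev θ (ini g n) = 0 := by
    intro g hg
    have h1 := h g hg
    rw [ext_ev T.val ξ' ξ hξ'] at h1
    have h2 : ev ξ' (ini g n) = 0 := hinj (by rw [h1, map_zero])
    rw [ext_ev ρ ξ' θ hθ, h2, map_zero]
  have hli := Fintype.linearIndependent_iff.1 (hf n θ h0) (fun i => ρ ⟨c i, hcT i⟩) ?_ i0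
  · have h1 : (⟨c i0, hcT i0⟩ : T) * ⟨(c i0)⁻¹, hiT⟩ = 1 := Subtype.ext (mul_inv_cancel₀ hi0)
    have h2 := congrArg ρ h1
    rw [map_mul, hli, zero_mul, map_one] at h2
    exact zero_ne_one h2
  · funext n'
    have h1 := congrFun hc n'
    simp only [Finset.sum_apply, Pi.smul_apply, smul_eq_mul, Pi.zero_apply] at h1 ⊢
    have h2 : ∑ i, (⟨c i, hcT i⟩ : T) * dl ξ' (ini (f i) n) n' = 0 := by
      apply hinj
      rw [map_sum, map_zero, ← h1]
      refine Finset.sum_congr rfl fun i _ => ?_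
      rw [map_mul, ← ext_dl T.val ξ' ξ hξ']
      rfl
    have h3 := congrArg ρ h2
    rw [map_sum, map_zero] at h3
    rw [← h3]
    refine Finset.sum_congr rfl fun i _ => ?_
    rw [map_mul, ← ext_dl ρ ξ' θ hθ]

theorem Nondeg.ext {M : Type} [AddCommGroup M] [Module.Free ℤ M] [Module.Finite ℤ M] {ι : Type}
    [Finite ι] {f : ι → M →₀ ℂ} (hf : Nondeg f) {κ : Type} [Field κ] [Algebra ℂ κ]
    (n : M →+ ℤ) (ξ : Multiplicative M →* κ) (h : ∀ i, ev ξ (ini (f i) n) = 0) :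
    LinearIndependent κ fun i => dl ξ (ini (f i) n) := by
  have h1 : NondegOn (Set.range f) f := fun n ξ hξ => hf n ξ fun i => hξ _ ⟨i, rfl⟩
  refine h1.ext n ξ ?_
  rintro _ ⟨i, rfl⟩
  exact h i

end T1
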