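import Pool.Agent.Lib.MP_23b606_ag.T1.A.El
import Pool.Agent.Lib.MP_23b606_ag.T1.A.VInd
import Pool.Agent.Lib.MP_23b606_ag.T1.A.Stz

/-! A/Min: the value of a minor at a discrete valuation ring. -/

set_option autoImplicit false

open scoped KaehlerDifferential

namespace T1

/-- The value of an element of the valuation ring and its residue. -/
theorem Min_res {K : Type} [Field K] {O : ValuationSubring K} (V : NVal O) (x : O)
    (hx : (x : K) ≠ 0) : (IsLocalRing.residue O x ≠ 0 → V.v x = 0) ∧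
      (IsLocalRing.residue O x = 0 → 0 < V.v x) := by
  have h0 : 0 ≤ V.v (x : K) := (V.mem _ hx).1 x.2
  constructor
  · intro h
    rw [IsLocalRing.residue_ne_zero_iff_isUnit] at h
    obtain ⟨y, hy⟩ := h.exists_right_inv
    have h1 : (x : K) * y = 1 := congrArg Subtype.val hy
    have h2 : (y : K) = (x : K)⁻¹ := eq_inv_of_mul_eq_one_right h1
    have h3 : 0 ≤ V.v (x : K)⁻¹ := by
      rw [← V.mem _ (inv_ne_zero hx), ← h2]
      exact y.2
    rw [V.inv hx] at h3
    omega
  · intro h
    rcases eq_or_lt_of_le h0 with h1 | h1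
    · exfalso
      have h2 : (x : K)⁻¹ ∈ O := by
        rw [V.mem _ (inv_ne_zero hx), V.inv hx, ← h1, neg_zero]
      have h3 : x * ⟨(x : K)⁻¹, h2⟩ = 1 := Subtype.ext (mul_inv_cancel₀ hx)
      exact (IsLocalRing.residue_ne_zero_iff_isUnit x).2 (IsUnit.of_mul_eq_one _ h3) h
    · exact h1

/-- The normalised rows are integral. -/
theorem Min_mem {M : Type} [AddCommGroup M] {K : Type} [Field K] [Algebra ℂ K]
    (g : M →₀ ℂ) (χ : Multiplicative M →* K) (O : ValuationSubring K) (V : NVal O)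
    (hO : ∀ c : ℂ, algebraMap ℂ K c ∈ O) (n' : M →+ ℤ) :
    V.π ^ (-hm g (V.nu χ)) * dl χ g n' ∈ O := by
  have hχ0 : ∀ m : M, χ (Multiplicative.ofAdd m) ≠ 0 := fun m hx => by
    have h : χ (Multiplicative.ofAdd m * (Multiplicative.ofAdd m)⁻¹) = 0 := by
      rw [map_mul, hx, zero_mul]
    rw [mul_inv_cancel, map_one] at h
    exact one_ne_zero h
  rw [dl, Finsupp.sum, Finset.mul_sum]
  refine sum_mem fun m hm' => ?_
  have e : V.π ^ (-hm g (V.nu χ)) * (algebraMap ℂ K (g m) * χ (Multiplicative.ofAdd m) *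
      ((n' m : ℤ) : K)) = algebraMap ℂ K (g m) *
        (V.π ^ (-hm g (V.nu χ)) * χ (Multiplicative.ofAdd m)) * ((n' m : ℤ) : K) := by ring
  rw [e]
  refine mul_mem (mul_mem (hO _) ?_) (intCast_mem O _)
  have h1 : V.π ^ (-hm g (V.nu χ)) ≠ 0 := zpow_ne_zero _ V.hπ
  rw [V.mem _ (mul_ne_zero h1 (hχ0 m)), V.mul _ _ h1 (hχ0 m), V.zpow V.hπ, V.vπ]
  have h2 : hm g (V.nu χ) ≤ V.nu χ m := hm_le g _ hm'
  have h3 : V.nu χ m = V.v (χ (Multiplicative.ofAdd m)) := rfl
  omega

theorem exists_minor {M : Type} [AddCommGroup M] {K : Type} [Field K] [Algebra ℂ K] {d : ℕ}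
    {ι : Type} [Fintype ι] {f : ι → M →₀ ℂ}
    (b : Module.Basis (Fin d) ℤ M) (χ : Multiplicative M →* K)
    {n : ℕ} (e : Fin n ⊕ ι ≃ Fin d) (O : ValuationSubring K) (V : NVal O)
    (hO : ∀ c : ℂ, algebraMap ℂ K c ∈ O) (hV : VInd f χ V) :
    ∃ s : Fin n → Fin d, dt b χ f e (fun i => Pi.single (s i) 1) ≠ 0 ∧
      V.v (dt b χ f e fun i => Pi.single (s i) 1) = ∑ i, hm (f i) (V.nu χ) := by
  classical
  set h : ι → ℤ := fun i => hm (f i) (V.nu χ) with hh
  set R : ι → Fin d → O := fun i k =>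
    ⟨V.π ^ (-h i) * row b χ (f i) k, Min_mem (f i) χ O V hO _⟩ with hR
  have hRv : ∀ i k, ((R i k : O) : K) = V.π ^ (-h i) * row b χ (f i) k := fun _ _ => rfl
  have hind : LinearIndependent (IsLocalRing.ResidueField O)
      fun i => fun k => IsLocalRing.residue O (R i k) := by
    rw [Fintype.linearIndependent_iff]
    intro g hg i0
    by_contra hgi
    choose c hc using fun i => IsLocalRing.residue_surjective (R := O) (g i)
    have hci : ((c i0 : O) : K) ≠ 0 := by
      intro h1
      apply hgi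
      rw [← hc i0]
      have h2 : c i0 = 0 := Subtype.ext h1
      rw [h2, map_zero]
    have hvc : V.v (c i0 : K) = 0 := (Min_res V (c i0) hci).1 (by rw [hc]; exact hgi)
    have hπ0 : ∀ j, V.π ^ (-h j) ≠ 0 := fun j => zpow_ne_zero _ V.hπ
    obtain ⟨n', hS0, hS⟩ := hV (fun j => (c j : K) * V.π ^ (-h j)) i0 (mul_ne_zero hci (hπ0 i0))
    have hle : V.v (∑ j, (c j : K) * V.π ^ (-h j) * dl χ (f j) n') ≤ 0 := by
      refine hS.trans (le_of_eq ?_)
      rw [V.mul _ _ hci (hπ0 i0), hvc, V.zpow V.hπ, V.vπ]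
      simp only [hh]
      ring
    set T : O := ∑ k, ((n' (b k) : ℤ) : O) * ∑ j, c j * R j k with hT
    have hTS : (T : K) = ∑ j, (c j : K) * V.π ^ (-h j) * dl χ (f j) n' := by
      have e1 : ∀ j, (c j : K) * V.π ^ (-h j) * dl χ (f j) n' =
          ∑ k, ((n' (b k) : ℤ) : K) * ((c j : K) * (V.π ^ (-h j) * row b χ (f j) k)) := by
        intro j
        rw [dl_eq_sum_row b, Finset.mul_sum]
        exact Finset.sum_congr rfl fun k _ => by ring
      simp only [e1]
      rw [Finset.sum_comm, hT]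
      push_cast
      refine Finset.sum_congr rfl fun k _ => ?_
      rw [Finset.mul_sum]
    have hres : IsLocalRing.residue O T = 0 := by
      rw [hT, map_sum]
      refine Finset.sum_eq_zero fun k _ => ?_
      rw [map_mul, map_sum]
      have h1 := congrFun hg k
      rw [Finset.sum_apply] at h1
      have h2 : ∑ j, IsLocalRing.residue O (c j * R j k) = 0 := by
        refine (Finset.sum_congr rfl fun j _ => ?_).trans h1
        rw [map_mul, hc, Pi.smul_apply, smul_eq_mul]
      rw [h2, mul_zero]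
    have hT0 : (T : K) ≠ 0 := by
      rw [hTS]
      exact hS0
    have h3 := (Min_res V T hT0).2 hres
    rw [hTS] at h3
    omega
  obtain ⟨s, hs⟩ := exists_unit_minor _ hind e
  set Mo : Matrix (Fin n ⊕ ι) (Fin n ⊕ ι) O := Matrix.of fun x y =>
    Sum.elim (fun i => (Pi.single (s i) 1 : Fin d → O)) R x (e y) with hMo
  have hdet : IsLocalRing.residue O Mo.det ≠ 0 := by
    have e1 : (IsLocalRing.residue O).mapMatrix Mo = Matrix.of fun x y : Fin n ⊕ ι =>
        Sum.elim (fun i => (Pi.single (s i) 1 : Fin d → IsLocalRing.ResidueField O))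
          (fun i k => IsLocalRing.residue O (R i k)) x (e y) := by
      ext x y
      rw [RingHom.mapMatrix_apply, Matrix.map_apply, hMo, Matrix.of_apply, Matrix.of_apply]
      rcases x with i | i
      · simp only [Sum.elim_inl, Pi.single_apply]
        split_ifs
        · exact map_one _
        · exact map_zero _
      · rfl
    rw [RingHom.map_det, e1]
    exact hs
  have hdK : ((Mo.det : O) : K) = Matrix.det (Matrix.of fun x y : Fin n ⊕ ι =>
      Sum.elim (fun i => (Pi.single (s i) 1 : Fin d → K))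
        (fun i k => V.π ^ (-h i) * row b χ (f i) k) x (e y)) := by
    have h1 : ((Mo.det : O) : K) = O.subtype Mo.det := rfl
    rw [h1, RingHom.map_det]
    congr 1
    ext x y
    rw [RingHom.mapMatrix_apply, Matrix.map_apply, hMo, Matrix.of_apply, Matrix.of_apply]
    rcases x with i | i
    · simp only [Sum.elim_inl, Pi.single_apply]
      split_ifs
      · rfl
      · rfl
    · rfl
  have hd0 : ((Mo.det : O) : K) ≠ 0 := by
    intro h1
    apply hdet
    have h2 : Mo.det = 0 := Subtype.ext h1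
    rw [h2, map_zero]
  have hd1 : V.v ((Mo.det : O) : K) = 0 := (Min_res V Mo.det hd0).1 hdet
  have hπh : V.π ^ (∑ i, h i) ≠ 0 := zpow_ne_zero _ V.hπ
  have hdt : dt b χ f e (fun i => Pi.single (s i) 1) =
      V.π ^ (∑ i, h i) * ((Mo.det : O) : K) := by
    rw [hdK]
    have h1 := Matrix.det_mul_column
      (Sum.elim (fun _ : Fin n => (1 : K)) fun i => V.π ^ h i)
      (Matrix.of fun x y : Fin n ⊕ ι =>
        Sum.elim (fun i => (Pi.single (s i) 1 : Fin d → K))
          (fun i k => V.π ^ (-h i) * row b χ (f i) k) x (e y))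
    have h2 : ∏ x, (Sum.elim (fun _ : Fin n => (1 : K)) fun i => V.π ^ h i) x =
        V.π ^ (∑ i, h i) := by
      rw [Fintype.prod_sum_type]
      simp only [Sum.elim_inl, Sum.elim_inr, Finset.prod_const_one, one_mul]
      induction (Finset.univ : Finset ι) using Finset.induction_on with
      | empty => rw [Finset.prod_empty, Finset.sum_empty, zpow_zero]
      | insert a t ha ih => rw [Finset.prod_insert ha, Finset.sum_insert ha, zpow_add₀ V.hπ, ih]
    rw [h2] at h1
    rw [← h1, dt]
    congr 1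
    ext x y
    simp only [Matrix.of_apply]
    rcases x with i | i
    · simp only [Sum.elim_inl, one_mul]
    · simp only [Sum.elim_inr]
      rw [← mul_assoc, ← zpow_add₀ V.hπ, add_neg_cancel, zpow_zero, one_mul]
  refine ⟨s, ?_, ?_⟩
  · rw [hdt]
    exact mul_ne_zero hπh hd0
  · rw [hdt, V.mul _ _ hπh hd0, hd1, V.zpow V.hπ, V.vπ]
    simp only [hh]
    ring

end T1
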