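import Pool.Agent.Lib.MP_23b606_ag.T1.A.Min

/-! A/Reg: a good tuple at a discrete valuation ring. -/

set_option autoImplicit false

open scoped KaehlerDifferential

namespace T1

private theorem v_prod {K : Type} [Field K] {O : ValuationSubring K} (V : NVal O) {α : Type}
    (S : Finset α) (x : α → K) (hx : ∀ i ∈ S, x i ≠ 0) :
    V.v (∏ i ∈ S, x i) = ∑ i ∈ S, V.v (x i) := by
  classical
  induction S using Finset.induction_on with
  | empty => rw [Finset.prod_empty, Finset.sum_empty, V.one]
  | insert a S ha ih =>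
    rw [Finset.prod_insert ha, Finset.sum_insert ha, V.mul _ _ (hx a (Finset.mem_insert_self a S))
      (Finset.prod_ne_zero_iff.2 fun i hi => hx i (Finset.mem_insert_of_mem hi)),
      ih fun i hi => hx i (Finset.mem_insert_of_mem hi)]

/-- Nonzero integers have value `0`. -/
private theorem v_int {K : Type} [Field K] [Algebra ℂ K] {O : ValuationSubring K} (V : NVal O)
    (hO : ∀ c : ℂ, algebraMap ℂ K c ∈ O) (k : ℤ) (hk : (k : K) ≠ 0) : V.v (k : K) = 0 := by
  have h1 : ((k : K)) ∈ O := by
    have := hO (k : ℂ)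
    rwa [map_intCast] at this
  have h2 : ((k : K))⁻¹ ∈ O := by
    have := hO ((k : ℂ)⁻¹)
    rwa [map_inv₀, map_intCast] at this
  have h3 := (V.mem _ hk).1 h1
  have h4 := (V.mem _ (inv_ne_zero hk)).1 h2
  rw [V.inv hk] at h4
  omega

private theorem hm_zero {M : Type} [AddCommGroup M] (f : M →₀ ℂ) : hm f 0 = 0 := by
  by_cases hf : f = 0
  · unfold hm
    rw [dif_neg]
    rw [Finsupp.support_nonempty_iff]
    exact fun h => h hf
  · obtain ⟨m, -, h2⟩ := exists_eq_hm f hf 0
    rw [← h2]
    rfl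

theorem exists_tuple {M : Type} [AddCommGroup M] {K : Type} [Field K] [Algebra ℂ K] {d : ℕ}
    {ι : Type} [Fintype ι] {f : ι → M →₀ ℂ}
    (b : Module.Basis (Fin d) ℤ M) (χ : Multiplicative M →* K) {n : ℕ}
    (e : Fin n ⊕ ι ≃ Fin d) (l : ⋀[K]^n Ω[K⁄ℂ] →ₗ[K] K)
    (hl : ∀ u : Fin n → Fin d → K,
      l (exteriorPower.ιMulti K n fun i => om b χ (u i)) = dt b χ f e u)
    (O : ValuationSubring K) (V : NVal O) (hO : ∀ c : ℂ, algebraMap ℂ K c ∈ O)
    (hV : VInd f χ V) :
    ∃ a : Fin n → K, (∀ i, a i ∈ O) ∧ l (W a) ≠ 0 ∧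
      V.v (l (W a)) ≤ ∑ i, hm (f i) (V.nu χ) + 1 ∧ (V.nu χ = 0 → V.v (l (W a)) ≤ 0) := by
  classical
  obtain ⟨s, hs0, hsv⟩ := exists_minor b χ e O V hO hV
  have hχ0 : ∀ x : Multiplicative M, χ x ≠ 0 := fun x hx => by
    have h : χ (x * x⁻¹) = 0 := by rw [map_mul, hx, zero_mul]
    rw [mul_inv_cancel, map_one] at h
    exact one_ne_zero h
  choose u hu0 huO huO' huv huc using
    fun j => V.unit (hχ0 (Multiplicative.ofAdd (b j)))
  -- the coefficients and the functions
  let k : Fin d → ℤ := fun j => V.v (χ (Multiplicative.ofAdd (b j)))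
  let p : Fin n → Ω[K⁄ℂ] := fun i =>
    ((k (s i) : K) * V.π⁻¹) • KaehlerDifferential.D ℂ K V.π
  let q : Fin n → Ω[K⁄ℂ] := fun i => (u (s i))⁻¹ • KaehlerDifferential.D ℂ K (u (s i))
  have hx : ∀ i, om b χ (Pi.single (s i) 1) = p i + q i := by
    intro i
    have h1 := om_single b χ (s i)
    have h2 : om b χ (Pi.single (s i) 1) = (χ (Multiplicative.ofAdd (b (s i))))⁻¹ •
        KaehlerDifferential.D ℂ K (χ (Multiplicative.ofAdd (b (s i)))) := by
      rw [h1, smul_smul, inv_mul_cancel₀ (hχ0 _), one_smul]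
    have h3 : KaehlerDifferential.D ℂ K (χ (Multiplicative.ofAdd (b (s i))))
        = V.π ^ k (s i) • KaehlerDifferential.D ℂ K (u (s i))
          + (u (s i) * ((k (s i) : K) * V.π ^ (k (s i) - 1))) •
            KaehlerDifferential.D ℂ K V.π := by
      conv_lhs => rw [huc (s i)]
      rw [Derivation.leibniz, Derivation.leibniz_zpow, ← smul_smul, mul_smul, Int.cast_smul_eq_zsmul]
    rw [h2, h3, smul_add, smul_smul, smul_smul, add_comm]
    have hu := hu0 (s i)
    have hπ := zpow_ne_zero (k (s i)) V.hπ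
    congr 2
    · conv_lhs => rw [huc (s i)]
      change (V.π ^ k (s i) * u (s i))⁻¹ * _ = _
      rw [zpow_sub_one₀ V.hπ]
      field_simp
    · conv_lhs => rw [huc (s i)]
      change (V.π ^ k (s i) * u (s i))⁻¹ * _ = _
      field_simp
  have hsum : dt b χ f e (fun i => Pi.single (s i) 1)
      = ∑ A : Finset (Fin n), l (exteriorPower.ιMulti K n (A.piecewise p q)) := by
    rw [← hl, ← map_sum]
    congr 1
    have h1 := (exteriorPower.ιMulti K n (M := Ω[K⁄ℂ])).toMultilinearMap.map_add_univ p q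
    have h2 : (fun i => om b χ (Pi.single (s i) 1)) = p + q := funext hx
    rw [h2]
    exact h1
  -- a term of value at most `h`
  obtain ⟨A, hA0, hAv⟩ : ∃ A : Finset (Fin n),
      l (exteriorPower.ιMulti K n (A.piecewise p q)) ≠ 0 ∧
      V.v (l (exteriorPower.ιMulti K n (A.piecewise p q))) ≤ ∑ i, hm (f i) (V.nu χ) := by
    by_contra hcon
    push Not at hcon
    have h1 := V.sum Finset.univ
      (fun A : Finset (Fin n) => l (exteriorPower.ιMulti K n (A.piecewise p q)))
      (∑ i, hm (f i) (V.nu χ)) (fun A _ => by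
        by_cases hA : l (exteriorPower.ιMulti K n (A.piecewise p q)) = 0
        · exact Or.inl hA
        · exact Or.inr (hcon A hA))
    rw [← hsum] at h1
    rcases h1 with h1 | h1
    · exact hs0 h1
    · omega
  let c : Fin n → K := fun i => if i ∈ A then (k (s i) : K) * V.π⁻¹ else (u (s i))⁻¹
  let a : Fin n → K := fun i => if i ∈ A then V.π else u (s i)
  have hpq : A.piecewise p q = fun i => c i • KaehlerDifferential.D ℂ K (a i) := by
    funext i
    by_cases hi : i ∈ A
    · simp only [Finset.piecewise, hi, if_true, p, c, a]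
    · simp only [Finset.piecewise, hi, if_false, q, c, a]
  have hterm : l (exteriorPower.ιMulti K n (A.piecewise p q)) = (∏ i, c i) * l (W a) := by
    rw [hpq]
    have h1 := (exteriorPower.ιMulti K n (M := Ω[K⁄ℂ])).map_smul_univ c
      (fun i => KaehlerDifferential.D ℂ K (a i))
    rw [h1, map_smul, smul_eq_mul]
    rfl
  rw [hterm] at hA0 hAv
  have hc : ∀ i, c i ≠ 0 := fun i => by
    have := left_ne_zero_of_mul hA0
    exact (Finset.prod_ne_zero_iff.1 this) i (Finset.mem_univ i)
  have hW : l (W a) ≠ 0 := right_ne_zero_of_mul hA0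
  have hkA : ∀ i ∈ A, (k (s i) : K) ≠ 0 := fun i hi => by
    have := hc i
    simp only [c, hi, if_true] at this
    exact left_ne_zero_of_mul this
  have hcv : ∀ i, V.v (c i) = if i ∈ A then -1 else 0 := by
    intro i
    by_cases hi : i ∈ A
    · simp only [c, hi, if_true]
      rw [V.mul _ _ (hkA i hi) (inv_ne_zero V.hπ), V.inv V.hπ, V.vπ, v_int V hO _ (hkA i hi)]
      rfl
    · simp only [c, hi, if_false]
      rw [V.inv (hu0 _), huv]
      rfl
  have hval : V.v (∏ i, c i) = -(A.card : ℤ) := by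
    rw [v_prod V _ _ fun i _ => hc i, Finset.sum_congr rfl fun i _ => hcv i, Finset.sum_ite_mem,
      Finset.univ_inter, Finset.sum_const, nsmul_eq_mul, mul_neg, mul_one]
  rw [V.mul _ _ (left_ne_zero_of_mul hA0) hW, hval] at hAv
  have hcard : A.card ≤ 1 := by
    by_contra hcon
    push Not at hcon
    obtain ⟨i, hi, j, hj, hij⟩ := Finset.one_lt_card.1 hcon
    apply hW
    have h1 : W a = 0 := by
      unfold W
      refine (exteriorPower.ιMulti K n (M := Ω[K⁄ℂ])).map_eq_zero_of_eq _ (i := i) (j := j) ?_ hij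
      simp only [a, hi, hj, if_true]
    rw [h1, map_zero]
  refine ⟨a, fun i => ?_, hW, by omega, fun h0 => ?_⟩
  · by_cases hi : i ∈ A
    · simp only [a, hi, if_true]
      rw [V.mem _ V.hπ, V.vπ]
      exact zero_le_one
    · simp only [a, hi, if_false]
      exact huO _
  · have hA : A = ∅ := by
      rw [Finset.eq_empty_iff_forall_notMem]
      intro i hi
      apply hkA i hi
      have h1 := DFunLike.congr_fun h0 (b (s i))
      have h2 : k (s i) = 0 := h1
      rw [h2, Int.cast_zero]
    rw [hA, Finset.card_empty, h0] at hAv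
    simp only [hm_zero, Finset.sum_const_zero] at hAv
    simpa using hAv

end T1
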